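import Pool.Agent.EVF.StmtsF

/-!
# EVF, row CBD: size of the coefficients of the members
-/

set_option autoImplicit false

namespace Pool.Agent.EVF.H2

open MvPolynomial

theorem cbd (hB : BndStmt) (hS : SpcStmt) : CbdStmt := by
  classical
  intro k r s W M hM
  choose Cf hC1 hC2 using fun ψ : MvPolynomial (Fin k) ℤ => hB k W ψ
  have hpos : ∀ i j, 0 ≤ ∑ e ∈ (M i j).support, Cf (coeff e (M i j)) := fun i j =>
    Finset.sum_nonneg fun e _ => le_trans zero_le_one (hC1 _)
  have hpos' : ∀ i, 0 ≤ ∑ j, ∑ e ∈ (M i j).support, Cf (coeff e (M i j)) := fun i =>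
    Finset.sum_nonneg fun j _ => hpos i j
  refine ⟨1 + ∑ i, ∑ j, ∑ e ∈ (M i j).support, Cf (coeff e (M i j)), ?_, ?_⟩
  · have := Finset.sum_nonneg fun i (_ : i ∈ (Finset.univ : Finset (Fin r))) => hpos' i
    linarith
  · intro B hB1 t ht i j e
    have hB0 : (0 : ℝ) ≤ (B : ℝ) ^ (s.m i + s.m j) := by positivity
    have hsum := Finset.sum_nonneg fun i (_ : i ∈ (Finset.univ : Finset (Fin r))) => hpos' i
    rw [(hS k r s W M hM t).2.2.1 i j e]
    by_cases he : e ∈ (M i j).support
    · have hne : coeff e (M i j) ≠ 0 := mem_support_iff.mp he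
      obtain ⟨a, ha⟩ : (coeff e (M i j)).support.Nonempty := by
        rw [Finset.nonempty_iff_ne_empty]
        intro h0
        exact hne (support_eq_empty.mp h0)
      have hw := hM.weight i j e he a ha
      obtain ⟨E, hE⟩ : ∃ E : ℕ, E + (s.α * e 0 + s.β * e 1) = s.m i + s.m j :=
        ⟨s.m i + s.m j - (s.α * e 0 + s.β * e 1), Nat.sub_add_cancel (by omega)⟩
      have h1 := hC2 (coeff e (M i j)) E (fun a' ha' => by
        have := hM.weight i j e he a' ha'
        omega) B hB1 t ht
      have h2 : Cf (coeff e (M i j)) ≤ 1 + ∑ i, ∑ j, ∑ e ∈ (M i j).support,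
          Cf (coeff e (M i j)) := by
        have a1 : Cf (coeff e (M i j)) ≤ ∑ e ∈ (M i j).support, Cf (coeff e (M i j)) :=
          Finset.single_le_sum (f := fun e => Cf (coeff e (M i j)))
            (fun e _ => le_trans zero_le_one (hC1 _)) he
        have a2 : ∑ e ∈ (M i j).support, Cf (coeff e (M i j)) ≤
            ∑ j, ∑ e ∈ (M i j).support, Cf (coeff e (M i j)) :=
          Finset.single_le_sum (f := fun j => ∑ e ∈ (M i j).support, Cf (coeff e (M i j)))
            (fun j _ => hpos i j) (Finset.mem_univ j)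
        have a3 : ∑ j, ∑ e ∈ (M i j).support, Cf (coeff e (M i j)) ≤
            ∑ i, ∑ j, ∑ e ∈ (M i j).support, Cf (coeff e (M i j)) :=
          Finset.single_le_sum
            (f := fun i => ∑ j, ∑ e ∈ (M i j).support, Cf (coeff e (M i j)))
            (fun i _ => hpos' i) (Finset.mem_univ i)
        linarith
      have h3 : (B : ℝ) ^ (s.m i + s.m j) =
          (B : ℝ) ^ E * (B : ℝ) ^ (s.α * e 0 + s.β * e 1) := by rw [← hE, pow_add]
      rw [h3, ← mul_assoc]
      refine mul_le_mul_of_nonneg_right (h1.trans ?_) (by positivity)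
      exact mul_le_mul_of_nonneg_right h2 (by positivity)
    · have h0 : coeff e (M i j) = 0 := notMem_support_iff.mp he
      rw [h0, map_zero, Int.cast_zero, abs_zero, zero_mul]
      exact mul_nonneg (by linarith) hB0

end Pool.Agent.EVF.H2
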